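import Pool.Agent.Helper96.QT.Def

/-!
# QT5b: the functional equation
-/

set_option autoImplicit false

namespace Pool.Agent.QT

open Real Filter Topology MeasureTheory Set DirichletCharacter

private lemma fe_q31 {q : ℕ} [NeZero q] {χ : DirichletCharacter ℂ q} (hp : χ.IsPrimitive) (hsq : χ ^ 2 = 1) (s : ℂ) :
    completedLFunction χ (1 - s) = (q : ℂ) ^ (s - 1 / 2) * rootNumber χ * completedLFunction χ s := by
  have hinv : χ⁻¹ = χ := by
    rw [inv_eq_iff_mul_eq_one, ← sq]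
    exact hsq
  have h := IsPrimitive.completedLFunction_one_sub hp s
  rwa [hinv] at h

private lemma root_sq31 {q : ℕ} [NeZero q] {χ : DirichletCharacter ℂ q} (hp : χ.IsPrimitive) (hsq : χ ^ 2 = 1) (hne : χ ≠ 1) :
    rootNumber χ * rootNumber χ = 1 := by
  have hq : (q : ℂ) ≠ 0 := by exact_mod_cast NeZero.ne q
  have h1 := fe_q31 hp hsq 2
  have h2 := fe_q31 hp hsq (1 - 2)
  rw [h1, show (1 : ℂ) - (1 - 2) = 2 by norm_num] at h2
  have hL : completedLFunction χ 2 ≠ 0 := by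
    intro h0
    have h3 := LFunction_eq_completed_div_gammaFactor χ 2 (Or.inl (by norm_num))
    rw [h0, zero_div] at h3
    exact LFunction_ne_zero_of_one_le_re χ (Or.inl hne) (by norm_num) h3
  have h4 : (q : ℂ) ^ ((1 : ℂ) - 2 - 1 / 2) * (q : ℂ) ^ ((2 : ℂ) - 1 / 2) = 1 := by
    rw [← Complex.cpow_add _ _ hq, show (1 : ℂ) - 2 - 1 / 2 + (2 - 1 / 2) = 0 by norm_num, Complex.cpow_zero]
  have h5 : completedLFunction χ 2 * (rootNumber χ * rootNumber χ) = completedLFunction χ 2 * 1 := by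
    calc completedLFunction χ 2 * (rootNumber χ * rootNumber χ)
        = ((q : ℂ) ^ ((1 : ℂ) - 2 - 1 / 2) * (q : ℂ) ^ ((2 : ℂ) - 1 / 2)) *
            (completedLFunction χ 2 * (rootNumber χ * rootNumber χ)) := by rw [h4, one_mul]
      _ = (q : ℂ) ^ ((1 : ℂ) - 2 - 1 / 2) * rootNumber χ *
            ((q : ℂ) ^ ((2 : ℂ) - 1 / 2) * rootNumber χ * completedLFunction χ 2) := by ring
      _ = completedLFunction χ 2 * 1 := by rw [← h2, mul_one]
  exact mul_left_cancel₀ hL h5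

private lemma alg31 {G1 G2 A B W E e a b : ℂ} (hG2 : G2 ≠ 0) (hW : W ≠ 0) (hE : E ≠ 0)
    (ha : a ≠ 0) (hb : b ≠ 0) (hB : B = E * W * A) :
    e / a / (A / G1) = W * E * (e * (a * G1 * b * G2⁻¹) / a ^ 2) * (1 / (b * (B / G2))) := by
  rw [hB]
  by_cases hA : A = 0
  · rw [hA]; simp
  by_cases hG1 : G1 = 0
  · rw [hG1]; simp
  field_simp

theorem fe {q : ℕ} [NeZero q] {χ : DirichletCharacter ℂ q} {a : ℕ → ℝ} (h : Dat χ a) :
    ∃ (ε : ℂ) (ev : Bool), ‖ε‖ = 1 ∧ ∀ (d : ℝ) (z : ℂ), |z.re| < 1 / 2 →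
      Complex.exp ((d : ℂ) ^ 2 * z ^ 2 / 2) / (1 / 2 + z) / LFunction χ (1 / 2 + z) =
        ε * Complex.exp (z * Real.log q) * (SS ev d z / (1 / 2 + z) ^ 2) * GG χ (-z) := by
  have hq1 : q ≠ 1 := by
    rintro rfl
    exact h.ne (level_one χ)
  have hq : (q : ℂ) ≠ 0 := by exact_mod_cast NeZero.ne q
  have hW2 := root_sq31 h.prim h.sq h.ne
  have hW : rootNumber χ ≠ 0 := by
    intro h0
    rw [h0] at hW2
    norm_num at hW2
  have hnorm : ‖rootNumber χ‖ = 1 := by
    have h1 : ‖rootNumber χ‖ * ‖rootNumber χ‖ = 1 := by rw [← norm_mul, hW2, norm_one]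
    nlinarith [norm_nonneg (rootNumber χ)]
  have hB : ∀ z : ℂ, completedLFunction χ (1 / 2 - z) =
      Complex.exp (z * Real.log q) * rootNumber χ * completedLFunction χ (1 / 2 + z) := by
    intro z
    have h1 := fe_q31 h.prim h.sq (1 / 2 + z)
    rw [show (1 : ℂ) - (1 / 2 + z) = 1 / 2 - z by ring] at h1
    rw [h1]
    congr 2
    rw [Complex.cpow_def_of_ne_zero hq, ← Complex.natCast_log]
    congr 1
    ring
  have hpi : (π : ℂ) ≠ 0 := by exact_mod_cast Real.pi_ne_zero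
  rcases χ.even_or_odd with hev | hodd
  · refine ⟨rootNumber χ, true, hnorm, fun d z hz => ?_⟩
    rw [abs_lt] at hz
    have hs1 : 0 < (1 / 2 + z).re := by simp; linarith [hz.1]
    have hs2 : 0 < (1 / 2 - z).re := by simp; linarith [hz.2]
    have ha : (1 / 2 + z : ℂ) ≠ 0 := fun h0 => by rw [h0] at hs1; simp at hs1
    have hb : (1 / 2 - z : ℂ) ≠ 0 := fun h0 => by rw [h0] at hs2; simp at hs2
    have hL1 : LFunction χ (1 / 2 + z) = completedLFunction χ (1 / 2 + z) / Complex.Gammaℝ (1 / 2 + z) := by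
      rw [LFunction_eq_completed_div_gammaFactor χ _ (Or.inr hq1), hev.gammaFactor_def]
    have hL2 : LFunction χ (1 / 2 + -z) = completedLFunction χ (1 / 2 - z) / Complex.Gammaℝ (1 / 2 - z) := by
      rw [← sub_eq_add_neg, LFunction_eq_completed_div_gammaFactor χ _ (Or.inr hq1), hev.gammaFactor_def]
    have hG : 2 * π * Complex.Gammaℝ (5 / 2 + z) = (1 / 2 + z) * Complex.Gammaℝ (1 / 2 + z) := by
      rw [show (5 / 2 + z : ℂ) = (1 / 2 + z) + 2 by ring, Complex.Gammaℝ_add_two ha]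
      field_simp
    unfold GG
    rw [hL1, hL2, ← sub_eq_add_neg]
    unfold SS
    rw [if_pos rfl, hG]
    exact alg31 (Complex.Gammaℝ_ne_zero_of_re_pos hs2) hW (Complex.exp_ne_zero _) ha hb (hB z)
  · refine ⟨rootNumber χ, false, hnorm, fun d z hz => ?_⟩
    rw [abs_lt] at hz
    have hs1 : 0 < (1 / 2 + z).re := by simp; linarith [hz.1]
    have hs2 : 0 < (1 / 2 - z).re := by simp; linarith [hz.2]
    have ha : (1 / 2 + z : ℂ) ≠ 0 := fun h0 => by rw [h0] at hs1; simp at hs1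
    have hb : (1 / 2 - z : ℂ) ≠ 0 := fun h0 => by rw [h0] at hs2; simp at hs2
    have hL1 : LFunction χ (1 / 2 + z) = completedLFunction χ (1 / 2 + z) / Complex.Gammaℝ (3 / 2 + z) := by
      rw [LFunction_eq_completed_div_gammaFactor χ _ (Or.inr hq1), hodd.gammaFactor_def]
      congr 2
      ring
    have hL2 : LFunction χ (1 / 2 + -z) = completedLFunction χ (1 / 2 - z) / Complex.Gammaℝ (3 / 2 - z) := by
      rw [← sub_eq_add_neg, LFunction_eq_completed_div_gammaFactor χ _ (Or.inr hq1), hodd.gammaFactor_def]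
      congr 2
      ring
    unfold GG
    rw [hL1, hL2, ← sub_eq_add_neg]
    unfold SS
    rw [if_neg (by decide)]
    exact alg31 (Complex.Gammaℝ_ne_zero_of_re_pos (by simp; linarith [hz.2])) hW (Complex.exp_ne_zero _) ha hb (hB z)

end Pool.Agent.QT
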