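import Pool.Agent.Helper96.QT.Def
import Pool.Agent.Helper68.LA.Sg
import Pool.Agent.H62.Lbound

/-!
# QT10: values at `1`

`|L(s, chi)| ≤ 16 |s| q^(1/8)` for `re s ≥ 15/16` (from `L(s) = s ∫_1^∞ A(t) t^(-s-1) dt`, `|A(t)| ≤ min (q, t)
≤ q^(1/8) t^(7/8)`), so `|L'(1)| ≤ 512 q^(1/8)` by Cauchy's estimate on the circle of radius `1/16`, and
`|L(1)| ≥ c q^(-1/32)` by Siegel's theorem.
-/

set_option autoImplicit false

namespace Pool.Agent.QT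

open Real Filter Topology MeasureTheory Set DirichletCharacter

private lemma norm_A_le31 {q : ℕ} [NeZero q] {χ : DirichletCharacter ℂ q} (hχ : χ ≠ 1) {t : ℝ} (ht : 1 < t) :
    ‖∑ k ∈ Finset.Icc 1 ⌊t⌋₊, χ (k : ZMod q)‖ ≤ (q : ℝ) ^ (1 / 8 : ℝ) * t ^ (7 / 8 : ℝ) := by
  have ht0 : 0 < t := by linarith
  have h1 : ‖∑ k ∈ Finset.Icc 1 ⌊t⌋₊, χ (k : ZMod q)‖ ≤ q := H62.norm_sum_Icc_le hχ (H62.q_ne_one hχ) _
  have h2 : ‖∑ k ∈ Finset.Icc 1 ⌊t⌋₊, χ (k : ZMod q)‖ ≤ t := by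
    refine (norm_sum_le _ _).trans ?_
    calc ∑ k ∈ Finset.Icc 1 ⌊t⌋₊, ‖χ ((k : ℕ) : ZMod q)‖ ≤ ∑ k ∈ Finset.Icc 1 ⌊t⌋₊, (1:ℝ) :=
          Finset.sum_le_sum (fun k _ => norm_le_one χ _)
      _ = (⌊t⌋₊ : ℝ) := by simp
      _ ≤ t := Nat.floor_le ht0.le
  obtain ⟨x, hx⟩ : ∃ x : ℝ, x = ‖∑ k ∈ Finset.Icc 1 ⌊t⌋₊, χ (k : ZMod q)‖ := ⟨_, rfl⟩
  rw [← hx] at h1 h2 ⊢
  have hx0 : 0 ≤ x := by rw [hx]; positivity
  calc x = x ^ (1 / 8 : ℝ) * x ^ (7 / 8 : ℝ) := by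
        rw [← Real.rpow_add_of_nonneg hx0 (by norm_num) (by norm_num)]; norm_num
    _ ≤ (q : ℝ) ^ (1 / 8 : ℝ) * t ^ (7 / 8 : ℝ) := by gcongr

private lemma norm_L_le31 {q : ℕ} [NeZero q] {χ : DirichletCharacter ℂ q} (hχ : χ ≠ 1) {s : ℂ} (hs : 15 / 16 ≤ s.re) :
    ‖LFunction χ s‖ ≤ ‖s‖ * (16 * (q : ℝ) ^ (1 / 8 : ℝ)) := by
  have hs0 : 0 < s.re := by linarith
  rw [H62.LFunction_eq_mellin hχ hs0, norm_mul, H62.mellin_Af_eq]
  gcongr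
  have hq0 : (0:ℝ) ≤ (q : ℝ) ^ (1 / 8 : ℝ) := by positivity
  have h1 : IntegrableOn (fun t : ℝ => (q : ℝ) ^ (1 / 8 : ℝ) * t ^ (-(s.re + 1 / 8))) (Ioi 1) :=
    (integrableOn_Ioi_rpow_of_lt (by linarith) one_pos).const_mul _
  refine (norm_integral_le_of_norm_le h1 ?_).trans ?_
  · filter_upwards [ae_restrict_mem measurableSet_Ioi] with t ht
    have ht0 : (0:ℝ) < t := lt_trans one_pos ht
    rw [norm_mul, Complex.norm_cpow_eq_rpow_re_of_pos ht0]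
    have e1 : (-(s + 1)).re = -(s.re + 1) := by simp
    rw [e1]
    have e2 : t ^ (-(s.re + 1 / 8)) = t ^ (7 / 8 : ℝ) * t ^ (-(s.re + 1)) := by
      rw [← Real.rpow_add ht0]; congr 1; ring
    rw [e2, ← mul_assoc]
    gcongr
    exact norm_A_le31 hχ ht
  · rw [integral_const_mul, integral_Ioi_rpow_of_lt (by linarith) one_pos, Real.one_rpow]
    have e3 : -1 / (-(s.re + 1 / 8) + 1) = 1 / (s.re + 1 / 8 - 1) := by
      rw [neg_div, ← div_neg]; congr 1; ring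
    rw [e3, mul_comm]
    have : 1 / (s.re + 1 / 8 - 1) ≤ 16 := by
      rw [div_le_iff₀ (by linarith)]; linarith
    gcongr

private lemma norm_L1_le31 {q : ℕ} [NeZero q] {χ : DirichletCharacter ℂ q} (hχ : χ ≠ 1) :
    ‖LFunction χ 1‖ ≤ 16 * (q : ℝ) ^ (1 / 8 : ℝ) ∧ ‖deriv (LFunction χ) 1‖ ≤ 512 * (q : ℝ) ^ (1 / 8 : ℝ) := by
  have hq0 : (0:ℝ) ≤ (q : ℝ) ^ (1 / 8 : ℝ) := by positivity
  constructor
  · have h := norm_L_le31 hχ (s := 1) (by norm_num)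
    simpa using h
  · have h := Complex.norm_deriv_le_of_forall_mem_sphere_norm_le (f := LFunction χ) (c := 1) (R := 1 / 16)
      (C := 32 * (q : ℝ) ^ (1 / 8 : ℝ)) (by norm_num) (differentiable_LFunction hχ).diffContOnCl ?_
    · refine h.trans (le_of_eq ?_)
      ring
    · intro z hz
      rw [mem_sphere_iff_norm] at hz
      have h1 : |(z - 1).re| ≤ 1 / 16 := (Complex.abs_re_le_norm _).trans hz.le
      rw [Complex.sub_re, Complex.one_re, abs_le] at h1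
      have h2 : ‖z‖ ≤ 2 := by
        calc ‖z‖ = ‖(z - 1) + 1‖ := by ring_nf
          _ ≤ ‖z - 1‖ + ‖(1:ℂ)‖ := norm_add_le _ _
          _ ≤ 2 := by rw [hz]; norm_num
      refine (norm_L_le31 hχ (by linarith [h1.1])).trans ?_
      nlinarith

private lemma deriv_GG31 {q : ℕ} [NeZero q] {χ : DirichletCharacter ℂ q} (hχ : χ ≠ 1) (h1 : LFunction χ 1 ≠ 0) :
    ‖deriv (GG χ) (1 / 2)‖ ≤ (‖LFunction χ 1‖ + ‖deriv (LFunction χ) 1‖) / ‖LFunction χ 1‖ ^ 2 := by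
  have e : (1 / 2 + 1 / 2 : ℂ) = 1 := by norm_num
  have hL : HasDerivAt (fun z : ℂ => LFunction χ (1 / 2 + z)) (deriv (LFunction χ) 1) (1 / 2) := by
    have h2 : HasDerivAt (LFunction χ) (deriv (LFunction χ) 1) (1 / 2 + 1 / 2) := by
      rw [e]; exact (differentiable_LFunction hχ 1).hasDerivAt
    have h3 : HasDerivAt (fun z : ℂ => 1 / 2 + z) 1 (1 / 2) := (hasDerivAt_id _).const_add _
    have h4 := h2.comp (1 / 2 : ℂ) h3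
    rw [mul_one] at h4
    exact h4
  have hD : HasDerivAt (fun z : ℂ => (1 / 2 + z) * LFunction χ (1 / 2 + z))
      (1 * LFunction χ (1 / 2 + 1 / 2) + (1 / 2 + 1 / 2) * deriv (LFunction χ) 1) (1 / 2) :=
    ((hasDerivAt_id _).const_add _).mul hL
  have hne : (1 / 2 + 1 / 2 : ℂ) * LFunction χ (1 / 2 + 1 / 2) ≠ 0 := by rw [e, one_mul]; exact h1
  have hG : HasDerivAt (GG χ) (-(1 * LFunction χ (1 / 2 + 1 / 2) + (1 / 2 + 1 / 2) * deriv (LFunction χ) 1) /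
      ((1 / 2 + 1 / 2) * LFunction χ (1 / 2 + 1 / 2)) ^ 2) (1 / 2) := by
    have h := hD.inv hne
    refine h.congr_of_eventuallyEq ?_
    filter_upwards with z
    unfold GG
    rw [one_div]
    rfl
  rw [hG.deriv, e, one_mul, one_mul, norm_div, norm_neg, norm_pow]
  gcongr
  exact norm_add_le _ _

theorem L1 {η : ℝ} (hη : 0 < η) : ∃ q₀ : ℕ, ∀ (q : ℕ) [NeZero q], q₀ ≤ q → ∀ χ : DirichletCharacter ℂ q, χ ^ 2 = 1 → χ ≠ 1 →
    (Real.log q + 1) * (q : ℝ) ^ (-(1 / 2) : ℝ) * ‖GG χ (1 / 2)‖ ≤ η ∧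
      (q : ℝ) ^ (-(1 / 2) : ℝ) * ‖deriv (GG χ) (1 / 2)‖ ≤ η := by
  obtain ⟨c, hc, hS⟩ := Helper68.LA.siegel (ε := 1 / 32) (by norm_num)
  set K : ℝ := 17 / c + 528 / c ^ 2 with hK
  have hK0 : 0 < K := by positivity
  refine ⟨⌈(K / η) ^ (4 : ℝ)⌉₊, ?_⟩
  intro q _ hq χ h2 hχ
  have hq1 : (1 : ℝ) ≤ q := by exact_mod_cast Nat.one_le_iff_ne_zero.2 (NeZero.ne q)
  have hq0 : (0 : ℝ) < q := by linarith
  have hqη : K * (q : ℝ) ^ (-(1 / 4) : ℝ) ≤ η := by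
    have h3 : (K / η) ^ (4 : ℝ) ≤ q := (Nat.le_ceil _).trans (by exact_mod_cast hq)
    have h4 : K / η ≤ (q : ℝ) ^ (1 / 4 : ℝ) := by
      have h5 := Real.rpow_le_rpow (by positivity) h3 (by norm_num : (0:ℝ) ≤ 1 / 4)
      rw [← Real.rpow_mul (by positivity)] at h5
      norm_num at h5 ⊢
      exact h5
    rw [Real.rpow_neg hq0.le, ← div_eq_mul_inv, div_le_iff₀ (by positivity)]
    rwa [div_le_iff₀ hη, mul_comm] at h4
  have hL := hS q χ h2 hχ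
  have hLpos : 0 < ‖LFunction χ 1‖ := lt_of_lt_of_le (by positivity) hL
  have hne : LFunction χ 1 ≠ 0 := norm_pos_iff.mp hLpos
  obtain ⟨b1, b2⟩ := norm_L1_le31 hχ
  have hinv : ‖LFunction χ 1‖⁻¹ ≤ (q : ℝ) ^ (1 / 32 : ℝ) / c := by
    rw [inv_le_comm₀ hLpos (by positivity)]
    refine le_trans (le_of_eq ?_) hL
    rw [inv_div, Real.rpow_neg hq0.le, div_eq_mul_inv]
  constructor
  · have e1 : ‖GG χ (1 / 2)‖ = ‖LFunction χ 1‖⁻¹ := by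
      unfold GG
      rw [show (1 / 2 + 1 / 2 : ℂ) = 1 by norm_num, one_mul, norm_div, norm_one, one_div]
    rw [e1]
    have hlog : Real.log q + 1 ≤ 17 * (q : ℝ) ^ (1 / 16 : ℝ) := by
      have h5 := Real.log_le_rpow_div hq0.le (show (0:ℝ) < 1 / 16 by norm_num)
      have h6 : 1 ≤ (q : ℝ) ^ (1 / 16 : ℝ) := Real.one_le_rpow hq1 (by norm_num)
      have h7 : (q : ℝ) ^ (1 / 16 : ℝ) / (1 / 16) = 16 * (q : ℝ) ^ (1 / 16 : ℝ) := by ring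
      linarith
    have hlog0 : 0 ≤ Real.log q + 1 := by linarith [Real.log_nonneg hq1]
    calc (Real.log q + 1) * (q : ℝ) ^ (-(1 / 2) : ℝ) * ‖LFunction χ 1‖⁻¹
        ≤ (17 * (q : ℝ) ^ (1 / 16 : ℝ)) * (q : ℝ) ^ (-(1 / 2) : ℝ) * ((q : ℝ) ^ (1 / 32 : ℝ) / c) := by gcongr
      _ = 17 / c * ((q : ℝ) ^ (1 / 16 : ℝ) * (q : ℝ) ^ (-(1 / 2) : ℝ) * (q : ℝ) ^ (1 / 32 : ℝ)) := by ring
      _ = 17 / c * (q : ℝ) ^ (-(13 / 32) : ℝ) := by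
          rw [← Real.rpow_add hq0, ← Real.rpow_add hq0]; norm_num
      _ ≤ 17 / c * (q : ℝ) ^ (-(1 / 4) : ℝ) :=
          mul_le_mul_of_nonneg_left (Real.rpow_le_rpow_of_exponent_le hq1 (by norm_num)) (by positivity)
      _ ≤ K * (q : ℝ) ^ (-(1 / 4) : ℝ) := by
          gcongr
          rw [hK]
          have : 0 < 528 / c ^ 2 := by positivity
          linarith
      _ ≤ η := hqη
  · have e2 := deriv_GG31 hχ hne
    have e3 : (‖LFunction χ 1‖ + ‖deriv (LFunction χ) 1‖) / ‖LFunction χ 1‖ ^ 2 ≤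
        (528 * (q : ℝ) ^ (1 / 8 : ℝ)) * ((q : ℝ) ^ (1 / 32 : ℝ) / c) ^ 2 := by
      rw [div_eq_mul_inv, ← inv_pow]
      gcongr
      linarith
    calc (q : ℝ) ^ (-(1 / 2) : ℝ) * ‖deriv (GG χ) (1 / 2)‖
        ≤ (q : ℝ) ^ (-(1 / 2) : ℝ) * ((528 * (q : ℝ) ^ (1 / 8 : ℝ)) * ((q : ℝ) ^ (1 / 32 : ℝ) / c) ^ 2) := by
          gcongr
          exact e2.trans e3
      _ = 528 / c ^ 2 * ((q : ℝ) ^ (-(1 / 2) : ℝ) * (q : ℝ) ^ (1 / 8 : ℝ) * ((q : ℝ) ^ (1 / 32 : ℝ) * (q : ℝ) ^ (1 / 32 : ℝ))) := by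
          ring
      _ = 528 / c ^ 2 * (q : ℝ) ^ (-(5 / 16) : ℝ) := by
          rw [← Real.rpow_add hq0, ← Real.rpow_add hq0, ← Real.rpow_add hq0]; norm_num
      _ ≤ 528 / c ^ 2 * (q : ℝ) ^ (-(1 / 4) : ℝ) :=
          mul_le_mul_of_nonneg_left (Real.rpow_le_rpow_of_exponent_le hq1 (by norm_num)) (by positivity)
      _ ≤ K * (q : ℝ) ^ (-(1 / 4) : ℝ) := by
          gcongr
          rw [hK]
          have : 0 < 17 / c := by positivity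
          linarith
      _ ≤ η := hqη

end Pool.Agent.QT
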